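import Mathlib
set_option autoImplicit false

/-! Kakeya, averaged over dilations: one-dimensional and product estimates. -/

namespace Pool.Agent.H147R3.KK

open MeasureTheory Set
open scoped ENNReal

theorem lint_pi_prod : ∀ (n : ℕ) (f : Fin n → ℝ → ℝ≥0∞), (∀ i, Measurable (f i)) →
    ∫⁻ x : Fin n → ℝ, ∏ i, f i (x i) = ∏ i, ∫⁻ x, f i x
  | 0, f, _ => by
      simp only [Finset.univ_eq_empty, Finset.prod_empty, lintegral_const, one_mul]
      rw [volume_pi, Measure.pi_empty_univ]
  | n + 1, f, hf => by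
      have hm : Measurable fun x : Fin (n + 1) → ℝ => ∏ i, f i (x i) :=
        Finset.measurable_prod _ (fun i _ => (hf i).comp (measurable_pi_apply i))
      have h1 := ((volume_preserving_piFinSuccAbove (fun _ : Fin (n + 1) => ℝ) 0).symm).lintegral_comp
        hm
      rw [← h1]
      have h2 : ∀ x : ℝ × (Fin n → ℝ),
          (fun x : Fin (n + 1) → ℝ => ∏ i, f i (x i))
            ((MeasurableEquiv.piFinSuccAbove (fun _ : Fin (n + 1) => ℝ) 0).symm x) =
          f 0 x.1 * ∏ i : Fin n, f (Fin.succ i) (x.2 i) := by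
        intro x
        simp only [MeasurableEquiv.piFinSuccAbove_symm_apply, Fin.insertNthEquiv,
            Fin.prod_univ_succ, Fin.insertNth_zero, Equiv.coe_fn_mk, Fin.cons_succ,
            Fin.zero_succAbove, cast_eq, Fin.cons_zero]
      have h3 : Measurable fun x : Fin n → ℝ => ∏ i : Fin n, f (Fin.succ i) (x i) :=
        Finset.measurable_prod _ (fun i _ => (hf _).comp (measurable_pi_apply i))
      calc _ = ∫⁻ x : ℝ × (Fin n → ℝ), f 0 x.1 * ∏ i : Fin n, f (Fin.succ i) (x.2 i) :=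
            lintegral_congr h2
        _ = (∫⁻ x, f 0 x) * ∫⁻ x : Fin n → ℝ, ∏ i : Fin n, f (Fin.succ i) (x i) := by
            rw [Measure.volume_eq_prod]
            exact lintegral_prod_mul (hf 0).aemeasurable h3.aemeasurable
        _ = (∫⁻ x, f 0 x) * ∏ i : Fin n, ∫⁻ x, f (Fin.succ i) x := by
            rw [lint_pi_prod n (fun i => f (Fin.succ i)) (fun i => hf _)]
        _ = _ := by rw [Fin.prod_univ_succ]

lemma lint_scale (g : ℝ → ℝ≥0∞) (hg : Measurable g) (c : ℝ) (hc : 0 < c) :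
    ∫⁻ x, g (c * x) = ENNReal.ofReal c⁻¹ * ∫⁻ x, g x := by
  have h1 := Real.map_volume_mul_left hc.ne'
  have h2 : ∫⁻ x, g x ∂(Measure.map (fun x => c * x) volume) = ∫⁻ x, g (c * x) :=
    lintegral_map hg (measurable_const_mul c)
  rw [← h2, h1, lintegral_smul_measure, abs_of_pos (by positivity), smul_eq_mul]

/-- the one-dimensional integral of the kernel -/
noncomputable def cc (s : ℝ) : ℝ≥0∞ := ∫⁻ x : ℝ, ENNReal.ofReal ((1 + |x|) ^ (-s))

lemma cc_ne (s : ℝ) (hs : 1 < s) : cc s ≠ ⊤ := by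
  have h1 : Integrable (fun x : ℝ => (1 + ‖x‖) ^ (-s)) :=
    integrable_one_add_norm (by simpa using hs)
  have h2 := h1.lintegral_lt_top
  exact h2.ne

lemma one_pair (a b t δ : ℝ) (ht : t ≠ 0) (hδ : 0 < δ) :
    volume {l : ℝ | l ∈ Icc (1 : ℝ) 4 ∧ |b + t * l * a| ≤ 2 * δ} ≤
      ENNReal.ofReal (7 / (1 + |t| / δ * |a|)) := by
  set y : ℝ := |t| / δ * |a| with hy
  have hy0 : 0 ≤ y := by positivity
  rcases le_or_gt y (4 / 3) with h | h
  · calc volume {l : ℝ | l ∈ Icc (1 : ℝ) 4 ∧ |b + t * l * a| ≤ 2 * δ} ≤ volume (Icc (1 : ℝ) 4) :=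
          measure_mono (fun l hl => hl.1)
      _ = ENNReal.ofReal 3 := by rw [Real.volume_Icc]; norm_num
      _ ≤ _ := by
          apply ENNReal.ofReal_le_ofReal
          rw [le_div_iff₀ (by positivity)]
          linarith
  · have ha : a ≠ 0 := by
      rintro rfl
      simp at hy
      linarith
    have hta : 0 < |t * a| := abs_pos.2 (mul_ne_zero ht ha)
    calc volume {l : ℝ | l ∈ Icc (1 : ℝ) 4 ∧ |b + t * l * a| ≤ 2 * δ} ≤
          volume (Metric.closedBall (-b / (t * a)) (2 * δ / |t * a|)) := by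
          apply measure_mono
          rintro l ⟨-, hl⟩
          rw [Metric.mem_closedBall, Real.dist_eq, le_div_iff₀ hta, ← abs_mul]
          have h1 : (l - -b / (t * a)) * (t * a) = b + t * l * a := by
            field_simp
            ring
          rw [h1]
          exact hl
      _ = ENNReal.ofReal (2 * (2 * δ / |t * a|)) := Real.volume_closedBall _ _
      _ ≤ _ := by
          apply ENNReal.ofReal_le_ofReal
          have h2 : |t * a| = y * δ := by
            rw [hy, abs_mul]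
            field_simp
          rw [h2]
          have h3 : 2 * (2 * δ / (y * δ)) = 4 / y := by
            have : y ≠ 0 := by linarith
            field_simp
            norm_num
          rw [h3, div_le_div_iff₀ (by linarith) (by linarith)]
          linarith

/-- comparison with cubes -/
lemma sep_sum (D : ℕ) (hD : 0 < D) (s : ℝ) (hs : 1 < s) : ∃ K : ℝ, 0 ≤ K ∧
    ∀ δ τ : ℝ, 0 < δ → 0 < τ → τ ≤ 1 → ∀ V : Finset (Fin D → ℝ),
      (∀ v ∈ V, ∀ w ∈ V, v ≠ w → δ ^ 2 ≤ ∑ j, (v j - w j) ^ 2) → ∀ u : Fin D → ℝ,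
      ∑ v ∈ V, ∏ j, (1 + τ / δ * |v j - u j|) ^ (-s) ≤ K * (τ⁻¹) ^ D := by
  have hDr : (1 : ℝ) ≤ D := by exact_mod_cast hD
  refine ⟨(2 ^ s * D * (cc s).toReal) ^ D, by positivity, ?_⟩
  intro δ τ hδ hτ hτ1 V hV u
  set η : ℝ := δ / D with hη
  have hη0 : 0 < η := by positivity
  set φ : ℝ → ℝ≥0∞ := fun x => ENNReal.ofReal ((1 + τ / δ * |x|) ^ (-s)) with hφ
  have hφm : Measurable φ := by
    rw [hφ]
    fun_prop
  have hφi : ∀ z : ℝ, ∫⁻ x, ENNReal.ofReal (2 ^ s) * φ (x - z) =
      ENNReal.ofReal (2 ^ s) * (ENNReal.ofReal (τ / δ)⁻¹ * cc s) := by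
    intro z
    rw [lintegral_const_mul _ (by fun_prop), lintegral_sub_right_eq_self φ z]
    congr 1
    have h1 := lint_scale (fun x => ENNReal.ofReal ((1 + |x|) ^ (-s))) (by fun_prop) (τ / δ)
      (by positivity)
    rw [← cc] at h1
    rw [← h1]
    apply lintegral_congr
    intro x
    rw [hφ]
    simp only
    rw [abs_mul, abs_of_pos (by positivity : 0 < τ / δ)]
  set Q : (Fin D → ℝ) → Set (Fin D → ℝ) := fun v => Set.univ.pi (fun j => Ico (v j) (v j + η))
    with hQ
  have hQm : ∀ v, MeasurableSet (Q v) := fun v =>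
    MeasurableSet.univ_pi (fun j => measurableSet_Ico)
  have hQv : ∀ v, volume (Q v) = (ENNReal.ofReal η) ^ D := by
    intro v
    rw [hQ]
    simp only
    rw [volume_pi_pi]
    simp [Real.volume_Ico]
  set F : (Fin D → ℝ) → ℝ≥0∞ := fun x => ∏ j, (ENNReal.ofReal (2 ^ s) * φ (x j - u j)) with hF
  have hFi : ∫⁻ x, F x = (ENNReal.ofReal (2 ^ s) * (ENNReal.ofReal (τ / δ)⁻¹ * cc s)) ^ D := by
    rw [hF, lint_pi_prod D (fun j x => ENNReal.ofReal (2 ^ s) * φ (x - u j))
      (fun j => by fun_prop)]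
    simp only [hφi]
    simp
  have hcomp : ∀ v, (∏ j, φ (v j - u j)) * (ENNReal.ofReal η) ^ D ≤ ∫⁻ x in Q v, F x := by
    intro v
    rw [← hQv v, ← setLIntegral_const]
    apply setLIntegral_mono' (hQm v)
    intro x hx
    rw [hF]
    apply Finset.prod_le_prod' 
    intro j _
    rw [hφ]
    simp only
    rw [← ENNReal.ofReal_mul (by positivity)]
    apply ENNReal.ofReal_le_ofReal
    have hxj : x j ∈ Ico (v j) (v j + η) := hx j (Set.mem_univ j)
    have h1 : |x j - u j| ≤ |v j - u j| + η := by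
      have : x j - u j = (v j - u j) + (x j - v j) := by ring
      rw [this]
      refine (abs_add_le _ _).trans ?_
      gcongr
      rw [abs_of_nonneg (by linarith [hxj.1])]
      linarith [hxj.2]
    have h2 : τ / δ * η ≤ 1 := by
      rw [hη]
      have : τ / δ * (δ / D) = τ / D := by field_simp
      rw [this, div_le_one (by positivity)]
      linarith
    have h3 : 1 + τ / δ * |x j - u j| ≤ 2 * (1 + τ / δ * |v j - u j|) := by
      have h4 : τ / δ * |x j - u j| ≤ τ / δ * (|v j - u j| + η) := by gcongr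
      have h5 : 0 ≤ τ / δ * |v j - u j| := by positivity
      nlinarith
    calc (1 + τ / δ * |v j - u j|) ^ (-s) = 2 ^ s * (2 * (1 + τ / δ * |v j - u j|)) ^ (-s) := by
          rw [Real.mul_rpow (by norm_num) (by positivity), ← mul_assoc, ← Real.rpow_add (by norm_num)]
          simp
      _ ≤ _ := by
          gcongr 2 ^ s * ?_
          exact Real.rpow_le_rpow_of_nonpos (by positivity) h3 (by linarith)
  have hdisj : Set.PairwiseDisjoint (↑V) Q := by
    intro v hv w hw hvw
    rw [Function.onFun, Set.disjoint_left]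
    intro x hx hx'
    have h1 := hV v hv w hw hvw
    have h2 : ∑ j, (v j - w j) ^ 2 < ∑ j : Fin D, η ^ 2 := by
      have : Nonempty (Fin D) := ⟨⟨0, hD⟩⟩
      apply Finset.sum_lt_sum_of_nonempty Finset.univ_nonempty
      intro j _
      have hxj : x j ∈ Ico (v j) (v j + η) := hx j (Set.mem_univ j)
      have hxj' : x j ∈ Ico (w j) (w j + η) := hx' j (Set.mem_univ j)
      rw [← sq_abs]
      have h3 : |v j - w j| < η := by
        rw [abs_lt]
        constructor <;> linarith [hxj.1, hxj.2, hxj'.1, hxj'.2]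
      have := abs_nonneg (v j - w j)
      nlinarith
    simp only [Finset.sum_const, Finset.card_univ, Fintype.card_fin, nsmul_eq_mul] at h2
    have h4 : (D : ℝ) * η ^ 2 ≤ δ ^ 2 := by
      rw [hη, div_pow]
      have : (D : ℝ) * (δ ^ 2 / D ^ 2) = δ ^ 2 / D := by field_simp
      rw [this]
      exact div_le_self (by positivity) hDr
    linarith
  have hsum : (∑ v ∈ V, ∏ j, φ (v j - u j)) * (ENNReal.ofReal η) ^ D ≤
      (ENNReal.ofReal (2 ^ s) * (ENNReal.ofReal (τ / δ)⁻¹ * cc s)) ^ D := by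
    rw [Finset.sum_mul, ← hFi]
    calc ∑ v ∈ V, (∏ j, φ (v j - u j)) * (ENNReal.ofReal η) ^ D ≤ ∑ v ∈ V, ∫⁻ x in Q v, F x :=
          Finset.sum_le_sum (fun v _ => hcomp v)
      _ = ∫⁻ x in ⋃ v ∈ V, Q v, F x :=
          (lintegral_biUnion_finset hdisj (fun v _ => hQm v) F).symm
      _ ≤ _ := setLIntegral_le_lintegral _ _
  have hreal : ∑ v ∈ V, ∏ j, φ (v j - u j) =
      ENNReal.ofReal (∑ v ∈ V, ∏ j, (1 + τ / δ * |v j - u j|) ^ (-s)) := by
    rw [ENNReal.ofReal_sum_of_nonneg (fun v _ => by positivity)]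
    apply Finset.sum_congr rfl
    intro v _
    rw [ENNReal.ofReal_prod_of_nonneg (fun j _ => by positivity)]
  rw [hreal, ← ENNReal.ofReal_toReal (cc_ne s hs), ← ENNReal.ofReal_mul (by positivity),
    ← ENNReal.ofReal_mul (by positivity), ← ENNReal.ofReal_pow (by positivity),
    ← ENNReal.ofReal_pow (by positivity), ← ENNReal.ofReal_mul (by positivity),
    ENNReal.ofReal_le_ofReal_iff (by positivity)] at hsum
  rw [← le_div_iff₀ (by positivity), ← div_pow] at hsum
  refine hsum.trans (le_of_eq ?_)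
  rw [← mul_pow]
  congr 1
  rw [hη]
  field_simp

end Pool.Agent.H147R3.KK
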