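import Mathlib
import Pool.Agent.H147R3.KK.One
set_option autoImplicit false

/-! Kakeya, averaged over dilations of the positions: measure estimates and counting. -/

namespace Pool.Agent.H147R3.KK

open MeasureTheory Set
open scoped ENNReal

/-- upper `α`-regular measure supported in `[-L, L]` -/
def Reg (μ : Measure ℝ) (A α L : ℝ) : Prop :=
  μ (Icc (-L) L)ᶜ = 0 ∧ ∀ a r : ℝ, 0 ≤ r → μ (Icc a (a + r)) ≤ ENNReal.ofReal (A * r ^ α)

lemma Reg.total {μ : Measure ℝ} {A α L : ℝ} (h : Reg μ A α L) (hL : 0 < L) :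
    μ Set.univ ≤ ENNReal.ofReal (A * (2 * L) ^ α) := by
  have h1 : (Set.univ : Set ℝ) = Icc (-L) L ∪ (Icc (-L) L)ᶜ := by simp
  rw [h1]
  refine (measure_union_le _ _).trans ?_
  rw [h.1, add_zero]
  have h2 := h.2 (-L) (2 * L) (by linarith)
  have e : -L + 2 * L = L := by ring
  rw [e] at h2
  exact h2

lemma Reg.fin {μ : Measure ℝ} {A α L : ℝ} (h : Reg μ A α L) (hL : 0 < L) : IsFiniteMeasure μ :=
  ⟨(h.total hL).trans_lt ENNReal.ofReal_lt_top⟩

lemma pair1 {μ : Measure ℝ} {A α L : ℝ} (h : Reg μ A α L) (hL : 0 < L) (hA : 0 ≤ A) (hα : 0 < α)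
    (a b t δ τ : ℝ) (hδ : 0 < δ) (hτ : 0 < τ) (ht : τ ≤ |t|) :
    μ {m : ℝ | |m * b + t * a| ≤ 2 * δ} ≤
      ENNReal.ofReal (A * (16 * L) ^ α * (1 + τ / δ * |a|) ^ (-α)) := by
  set y : ℝ := τ / δ * |a| with hy
  have hy0 : 0 ≤ y := by positivity
  have hyd : τ * |a| = y * δ := by rw [hy]; field_simp
  have key : ∀ c : ℝ, 0 ≤ c → c * (1 + y) ≤ 16 * L → A * c ^ α ≤
      A * (16 * L) ^ α * (1 + y) ^ (-α) := by
    intro c hc hcy
    have h1 : c ≤ 16 * L / (1 + y) := by rwa [le_div_iff₀ (by positivity)]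
    calc A * c ^ α ≤ A * (16 * L / (1 + y)) ^ α := by gcongr
      _ = _ := by
        rw [Real.div_rpow (by positivity) (by positivity), Real.rpow_neg (by positivity)]
        ring
  have htriv : (1 + y) ≤ 8 → μ {m : ℝ | |m * b + t * a| ≤ 2 * δ} ≤
      ENNReal.ofReal (A * (16 * L) ^ α * (1 + y) ^ (-α)) := by
    intro h8
    refine (measure_mono (subset_univ _)).trans ((h.total hL).trans ?_)
    exact ENNReal.ofReal_le_ofReal (key (2 * L) (by positivity) (by nlinarith))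
  rcases le_or_gt (1 + y) 8 with h8 | h8
  · exact htriv h8
  have hapos : 0 < |a| := by
    by_contra hcon
    have : |a| = 0 := le_antisymm (not_lt.1 hcon) (abs_nonneg _)
    rw [hy, this] at h8
    norm_num at h8
  rcases le_or_gt (τ * |a| / (2 * L)) |b| with hb | hb
  · have hbpos : 0 < |b| := lt_of_lt_of_le (by positivity) hb
    have hb0 : b ≠ 0 := abs_pos.1 hbpos
    have hsub : {m : ℝ | |m * b + t * a| ≤ 2 * δ} ⊆
        Icc (-(t * a) / b - 2 * δ / |b|) ((-(t * a) / b - 2 * δ / |b|) + 4 * δ / |b|) := by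
      intro m hm
      rw [mem_ofPred_eq] at hm
      have h1 : |m - (-(t * a) / b)| ≤ 2 * δ / |b| := by
        rw [le_div_iff₀ hbpos, ← abs_mul]
        have : (m - -(t * a) / b) * b = m * b + t * a := by
          field_simp
          ring
        rw [this]
        exact hm
      rw [abs_le] at h1
      have h2 : 4 * δ / |b| = 2 * δ / |b| + 2 * δ / |b| := by ring
      constructor <;> linarith [h1.1, h1.2]
    refine (measure_mono hsub).trans ((h.2 _ _ (by positivity)).trans ?_)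
    apply ENNReal.ofReal_le_ofReal
    refine key (4 * δ / |b|) (by positivity) ?_
    have h3 : y * δ ≤ |b| * (2 * L) := by
      rw [div_le_iff₀ (by positivity)] at hb
      linarith
    rw [div_mul_eq_mul_div, div_le_iff₀ hbpos]
    have h4 : (1 + y) ≤ 2 * y := by linarith
    calc 4 * δ * (1 + y) ≤ 4 * δ * (2 * y) := by gcongr
      _ = 8 * (y * δ) := by ring
      _ ≤ 8 * (|b| * (2 * L)) := by gcongr
      _ = _ := by ring
  · have hsub : {m : ℝ | |m * b + t * a| ≤ 2 * δ} ⊆ (Icc (-L) L)ᶜ := by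
      intro m hm hmL
      rw [mem_ofPred_eq] at hm
      have h1 : |m| ≤ L := abs_le.2 hmL
      have h2 : |t * a| ≤ |m * b + t * a| + |m * b| := by
        have : t * a = (m * b + t * a) - m * b := by ring
        nth_rewrite 1 [this]
        exact abs_sub _ _
      rw [abs_mul, abs_mul m b] at h2
      have h3 : |m| * |b| ≤ L * |b| := by gcongr
      have h4 : τ * |a| ≤ |t| * |a| := by gcongr
      have h5 : L * |b| < τ * |a| / 2 := by
        have : |b| * (2 * L) < τ * |a| := by rwa [lt_div_iff₀ (by positivity)] at hb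
        linarith
      have h6 : y * δ < 4 * δ := by linarith
      have h7 : y < 4 := by nlinarith
      linarith
    refine (measure_mono hsub).trans ?_
    rw [h.1]
    exact zero_le

lemma pair0 {α : ℝ} (hα1 : α ≤ 1) (a b δ τ : ℝ) (hδ : 0 < δ) (hτ : 0 < τ) :
    volume {t : ℝ | (τ ≤ |t| ∧ |t| ≤ 2 * τ) ∧ |b + t * a| ≤ 2 * δ} ≤
      ENNReal.ofReal (8 * τ * (1 + τ / δ * |a|) ^ (-α)) := by
  set y : ℝ := τ / δ * |a| with hy
  have hy0 : 0 ≤ y := by positivity
  have key : ∀ c : ℝ, c * (1 + y) ≤ 8 * τ → c ≤ 8 * τ * (1 + y) ^ (-α) := by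
    intro c hc
    have h1 : (1 + y) ^ (-1 : ℝ) ≤ (1 + y) ^ (-α) :=
      Real.rpow_le_rpow_of_exponent_le (by linarith) (by linarith)
    rw [Real.rpow_neg_one] at h1
    calc c ≤ 8 * τ * (1 + y)⁻¹ := by
          rw [← div_eq_mul_inv, le_div_iff₀ (by positivity)]
          exact hc
      _ ≤ _ := by gcongr
  rcases le_or_gt y 1 with h | h
  · calc volume {t : ℝ | (τ ≤ |t| ∧ |t| ≤ 2 * τ) ∧ |b + t * a| ≤ 2 * δ} ≤
          volume (Icc (-(2 * τ)) (2 * τ)) := measure_mono (fun t ht => abs_le.1 ht.1.2)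
      _ = ENNReal.ofReal (4 * τ) := by rw [Real.volume_Icc]; congr 1; ring
      _ ≤ _ := ENNReal.ofReal_le_ofReal (key _ (by nlinarith))
  · have ha : 0 < |a| := by
      by_contra hcon
      have : |a| = 0 := le_antisymm (not_lt.1 hcon) (abs_nonneg _)
      rw [hy, this] at h
      norm_num at h
    have ha0 : a ≠ 0 := abs_pos.1 ha
    calc volume {t : ℝ | (τ ≤ |t| ∧ |t| ≤ 2 * τ) ∧ |b + t * a| ≤ 2 * δ} ≤
          volume (Metric.closedBall (-b / a) (2 * δ / |a|)) := by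
          apply measure_mono
          rintro t ⟨-, ht⟩
          rw [Metric.mem_closedBall, Real.dist_eq, le_div_iff₀ ha, ← abs_mul]
          have h1 : (t - -b / a) * a = b + t * a := by
            field_simp
            ring
          rw [h1]
          exact ht
      _ = ENNReal.ofReal (2 * (2 * δ / |a|)) := Real.volume_closedBall _ _
      _ ≤ _ := by
          apply ENNReal.ofReal_le_ofReal
          apply key
          have h2 : |a| = y * δ / τ := by rw [hy]; field_simp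
          rw [h2]
          have h3 : 2 * (2 * δ / (y * δ / τ)) * (1 + y) = 4 * τ * ((1 + y) / y) := by
            have : y ≠ 0 := by linarith
            field_simp
            norm_num
          rw [h3]
          have h4 : (1 + y) / y ≤ 2 := by
            rw [div_le_iff₀ (by linarith)]
            linarith
          nlinarith

lemma young_sum {ι : Type*} (V : Finset ι) (g : ι → ℝ) (hg : ∀ v ∈ V, 0 < g v) (s : ℝ) (hs : 1 < s)
    (K X : ℝ) (hX : 0 < X) (hN : 0 < V.card) (h : ∑ v ∈ V, g v ^ s ≤ K * X) :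
    ∑ v ∈ V, g v ≤ (1 + K) * ((V.card : ℝ) ^ (1 - 1 / s) * X ^ (1 / s)) := by
  have hNr : (0 : ℝ) < V.card := by exact_mod_cast hN
  set N : ℝ := (V.card : ℝ) with hNdef
  set y : ℝ := (X / N) ^ (1 / s) with hy
  have hy0 : 0 < y := by positivity
  have hys : y ^ s = X / N := by
    rw [hy, ← Real.rpow_mul (by positivity)]
    rw [one_div_mul_cancel (by linarith), Real.rpow_one]
  have hys' : y ^ (1 - s) * X = y * N := by
    rw [Real.rpow_sub hy0, hys, Real.rpow_one]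
    field_simp
  have hyN : y * N = N ^ (1 - 1 / s) * X ^ (1 / s) := by
    rw [hy, Real.div_rpow hX.le hNr.le, Real.rpow_sub hNr, Real.rpow_one]
    field_simp
  have h1 : ∀ v ∈ V, g v ≤ y + y ^ (1 - s) * g v ^ s := by
    intro v hv
    have hgv := hg v hv
    rcases le_or_gt (g v) y with h2 | h2
    · have : 0 ≤ y ^ (1 - s) * g v ^ s := by positivity
      linarith
    · have h3 : g v ^ (1 - s) ≤ y ^ (1 - s) :=
        Real.rpow_le_rpow_of_nonpos hy0 h2.le (by linarith)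
      have h4 : g v = g v ^ (1 - s) * g v ^ s := by
        rw [← Real.rpow_add hgv]
        simp
      calc g v = g v ^ (1 - s) * g v ^ s := h4
        _ ≤ y ^ (1 - s) * g v ^ s := by gcongr
        _ ≤ _ := by linarith
  calc ∑ v ∈ V, g v ≤ ∑ v ∈ V, (y + y ^ (1 - s) * g v ^ s) := Finset.sum_le_sum h1
    _ = N * y + y ^ (1 - s) * ∑ v ∈ V, g v ^ s := by
        rw [Finset.sum_add_distrib, ← Finset.mul_sum, Finset.sum_const, nsmul_eq_mul]
    _ ≤ N * y + y ^ (1 - s) * (K * X) := by gcongr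
    _ = (1 + K) * (y * N) := by
        have : y ^ (1 - s) * (K * X) = K * (y ^ (1 - s) * X) := by ring
        rw [this, hys']
        ring
    _ = _ := by rw [hyN]

/-- the sum of the kernel over a separated set -/
lemma ker_sum (D : ℕ) (hD : 0 < D) (α : ℝ) (hα0 : 0 < α) (hα1 : α ≤ 1) (s : ℝ) (hs : 1 < s) :
    ∃ K : ℝ, 0 < K ∧
    ∀ δ τ : ℝ, 0 < δ → 0 < τ → τ ≤ 1 → ∀ V : Finset (Fin D → ℝ), 0 < V.card →
      (∀ v ∈ V, ∀ w ∈ V, v ≠ w → δ ^ 2 ≤ ∑ j, (v j - w j) ^ 2) → ∀ u : Fin D → ℝ,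
      ∑ w ∈ V, ∏ j, (1 + τ / δ * |w j - u j|) ^ (-α) ≤
        K * ((V.card : ℝ) ^ (1 - α / s) * ((τ⁻¹) ^ D) ^ (α / s)) := by
  obtain ⟨K, hK0, hK⟩ := sep_sum D hD s hs
  refine ⟨1 + K, by positivity, ?_⟩
  intro δ τ hδ hτ hτ1 V hN hV u
  have h1 := hK δ τ hδ hτ hτ1 V hV u
  have hsα : 1 < s / α := by
    rw [one_lt_div hα0]
    linarith
  have h2 := young_sum V (fun w => ∏ j, (1 + τ / δ * |w j - u j|) ^ (-α))
    (fun w _ => Finset.prod_pos (fun j _ => by positivity)) (s / α) hsα K ((τ⁻¹) ^ D)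
    (by positivity) hN
    (by
      refine le_trans (le_of_eq ?_) h1
      refine Finset.sum_congr rfl (fun w _ => ?_)
      rw [← Real.finsetProd_rpow _ _ (fun j _ => by positivity)]
      refine Finset.prod_congr rfl (fun j _ => ?_)
      rw [← Real.rpow_mul (by positivity)]
      congr 1
      field_simp)
  rw [one_div_div] at h2
  exact h2

/-- the cube with centre `c` and side `2δ` -/
def cube {D : ℕ} (δ : ℝ) (c : Fin D → ℝ) : Set (Fin D → ℝ) :=
  Set.univ.pi (fun j => Icc (c j - δ) (c j + δ))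

lemma cube_meas {D : ℕ} (δ : ℝ) (c : Fin D → ℝ) : MeasurableSet (cube δ c) :=
  MeasurableSet.univ_pi (fun _ => measurableSet_Icc)

lemma cube_vol {D : ℕ} (δ : ℝ) (c : Fin D → ℝ) :
    volume (cube δ c) = (ENNReal.ofReal (2 * δ)) ^ D := by
  rw [cube, volume_pi_pi]
  simp only [Real.volume_Icc]
  have : ∀ j : Fin D, c j + δ - (c j - δ) = 2 * δ := fun j => by ring
  simp only [this]
  simp

/-- the centre of the slice at height `t` -/
def cen {D : ℕ} (p : (Fin D → ℝ) → (Fin D → ℝ)) (v M : Fin D → ℝ) (t : ℝ) : Fin D → ℝ :=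
  fun j => M j * p v j + t * v j

/-- the counting function -/
noncomputable def cnt {D : ℕ} (δ : ℝ) (V : Finset (Fin D → ℝ)) (p : (Fin D → ℝ) → (Fin D → ℝ))
    (M : Fin D → ℝ) (t : ℝ) (x : Fin D → ℝ) : ℝ≥0∞ :=
  ∑ v ∈ V, (cube δ (cen p v M t)).indicator (fun _ => (1 : ℝ≥0∞)) x

lemma cnt_meas1 {D : ℕ} (δ : ℝ) (V : Finset (Fin D → ℝ)) (p : (Fin D → ℝ) → (Fin D → ℝ))
    (M : Fin D → ℝ) (t : ℝ) : Measurable (cnt δ V p M t) := by
  unfold cnt
  exact Finset.measurable_sum _ (fun v _ => measurable_const.indicator (cube_meas _ _))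

lemma cnt_meas {D : ℕ} (δ : ℝ) (V : Finset (Fin D → ℝ)) (p : (Fin D → ℝ) → (Fin D → ℝ)) :
    Measurable fun z : ((Fin D → ℝ) × ℝ) × (Fin D → ℝ) => cnt δ V p z.1.1 z.1.2 z.2 := by
  unfold cnt
  apply Finset.measurable_sum
  intro v _
  have h1 : (fun z : ((Fin D → ℝ) × ℝ) × (Fin D → ℝ) =>
      (cube δ (cen p v z.1.1 z.1.2)).indicator (fun _ => (1 : ℝ≥0∞)) z.2) =
      Set.indicator {z : ((Fin D → ℝ) × ℝ) × (Fin D → ℝ) | ∀ j, z.2 j ∈
        Icc (z.1.1 j * p v j + z.1.2 * v j - δ) (z.1.1 j * p v j + z.1.2 * v j + δ)}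
        (fun _ => (1 : ℝ≥0∞)) := by
    ext z
    simp only [Set.indicator, cube, cen, Set.mem_pi, Set.mem_univ, forall_true_left,
      Set.mem_ofPred_eq]
  rw [h1]
  apply measurable_const.indicator
  have h2 : {z : ((Fin D → ℝ) × ℝ) × (Fin D → ℝ) | ∀ j, z.2 j ∈
        Icc (z.1.1 j * p v j + z.1.2 * v j - δ) (z.1.1 j * p v j + z.1.2 * v j + δ)} =
      ⋂ j, {z : ((Fin D → ℝ) × ℝ) × (Fin D → ℝ) | z.2 j ∈
        Icc (z.1.1 j * p v j + z.1.2 * v j - δ) (z.1.1 j * p v j + z.1.2 * v j + δ)} := by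
    ext z
    simp
  rw [h2]
  apply MeasurableSet.iInter
  intro j
  have e1 : Measurable fun z : ((Fin D → ℝ) × ℝ) × (Fin D → ℝ) => z.2 j :=
    (measurable_pi_apply j).comp measurable_snd
  have e2 : Measurable fun z : ((Fin D → ℝ) × ℝ) × (Fin D → ℝ) => z.1.1 j :=
    (measurable_pi_apply j).comp (measurable_fst.comp measurable_fst)
  have e3 : Measurable fun z : ((Fin D → ℝ) × ℝ) × (Fin D → ℝ) => z.1.2 :=
    measurable_snd.comp measurable_fst
  have e4 : Measurable fun z : ((Fin D → ℝ) × ℝ) × (Fin D → ℝ) =>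
      z.1.1 j * p v j + z.1.2 * v j := (e2.mul_const _).add (e3.mul_const _)
  exact (measurableSet_le (e4.sub_const _) e1).inter (measurableSet_le e1 (e4.add_const _))

lemma cnt_le {D : ℕ} (δ : ℝ) (V : Finset (Fin D → ℝ)) (p : (Fin D → ℝ) → (Fin D → ℝ))
    (M : Fin D → ℝ) (t : ℝ) (x : Fin D → ℝ) : cnt δ V p M t x ≤ V.card := by
  unfold cnt
  calc _ ≤ ∑ v ∈ V, (1 : ℝ≥0∞) := Finset.sum_le_sum (fun v _ => Set.indicator_le_self' (by simp) x)
    _ = _ := by simp

lemma cnt_one {D : ℕ} (δ : ℝ) (V : Finset (Fin D → ℝ)) (p : (Fin D → ℝ) → (Fin D → ℝ))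
    (M : Fin D → ℝ) (t : ℝ) : ∫⁻ x, cnt δ V p M t x = V.card * (ENNReal.ofReal (2 * δ)) ^ D := by
  unfold cnt
  rw [lintegral_finsetSum _ (fun v _ => measurable_const.indicator (cube_meas _ _))]
  simp only [lintegral_indicator_const (cube_meas _ _), cube_vol, one_mul]
  simp

lemma cnt_two {D : ℕ} (δ : ℝ) (V : Finset (Fin D → ℝ)) (p : (Fin D → ℝ) → (Fin D → ℝ))
    (M : Fin D → ℝ) (t : ℝ) : ∫⁻ x, cnt δ V p M t x ^ (2 : ℝ) =
      ∑ v ∈ V, ∑ w ∈ V, volume (cube δ (cen p v M t) ∩ cube δ (cen p w M t)) := by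
  have h1 : ∀ x, cnt δ V p M t x ^ (2 : ℝ) = ∑ v ∈ V, ∑ w ∈ V,
      (cube δ (cen p v M t) ∩ cube δ (cen p w M t)).indicator (fun _ => (1 : ℝ≥0∞)) x := by
    intro x
    rw [ENNReal.rpow_two, sq]
    unfold cnt
    rw [Finset.sum_mul_sum]
    refine Finset.sum_congr rfl (fun v _ => Finset.sum_congr rfl (fun w _ => ?_))
    by_cases h1 : x ∈ cube δ (cen p v M t) <;> by_cases h2 : x ∈ cube δ (cen p w M t) <;>
      simp [h1, h2]
  simp only [h1]
  rw [lintegral_finsetSum _ (fun v _ => Finset.measurable_sum _ (fun w _ =>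
    measurable_const.indicator ((cube_meas _ _).inter (cube_meas _ _))))]
  refine Finset.sum_congr rfl (fun v _ => ?_)
  rw [lintegral_finsetSum _ (fun w _ =>
    measurable_const.indicator ((cube_meas _ _).inter (cube_meas _ _)))]
  refine Finset.sum_congr rfl (fun w _ => ?_)
  rw [lintegral_indicator_const ((cube_meas _ _).inter (cube_meas _ _)), one_mul]

lemma pw (f M : ℝ≥0∞) (hf : f ≠ ⊤) (q : ℝ) (hq1 : 1 ≤ q) (hq2 : q ≤ 2) :
    f ^ q ≤ M ^ (q - 1) * f + M ^ (q - 2) * f ^ (2 : ℝ) := by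
  rcases le_or_gt f M with h | h
  · refine le_trans ?_ le_self_add
    rcases eq_or_ne f 0 with h0 | h0
    · rw [h0, ENNReal.zero_rpow_of_pos (by linarith)]
      simp
    calc f ^ q = f ^ (q - 1) * f := by
          conv_rhs => rw [← ENNReal.rpow_one f, ← ENNReal.rpow_mul, ← ENNReal.rpow_add _ _ h0 hf]
          congr 1
          ring
      _ ≤ _ := by gcongr
  · refine le_trans ?_ le_add_self
    have h0 : f ≠ 0 := (lt_of_le_of_lt (zero_le) h).ne'
    calc f ^ q = f ^ (q - 2) * f ^ (2 : ℝ) := by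
          rw [← ENNReal.rpow_add _ _ h0 hf]
          congr 1
          ring
      _ ≤ _ := by
          gcongr ?_ * _
          have e1 : q - 2 = -(2 - q) := by ring
          rw [e1, ENNReal.rpow_neg, ENNReal.rpow_neg, ENNReal.inv_le_inv]
          exact ENNReal.rpow_le_rpow h.le (by linarith)

/-- the `q`-th moment of the counting function -/
noncomputable def GG {D : ℕ} (q δ : ℝ) (V : Finset (Fin D → ℝ)) (p : (Fin D → ℝ) → (Fin D → ℝ))
    (M : Fin D → ℝ) (t : ℝ) : ℝ≥0∞ :=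
  ∫⁻ x, cnt δ V p M t x ^ q

lemma GG_meas {D : ℕ} (q δ : ℝ) (V : Finset (Fin D → ℝ)) (p : (Fin D → ℝ) → (Fin D → ℝ)) :
    Measurable fun z : (Fin D → ℝ) × ℝ => GG q δ V p z.1 z.2 := by
  unfold GG
  exact ((cnt_meas δ V p).pow_const q).lintegral_prod_right'

lemma GG_le {D : ℕ} (q δ : ℝ) (V : Finset (Fin D → ℝ)) (p : (Fin D → ℝ) → (Fin D → ℝ))
    (M : Fin D → ℝ) (t : ℝ) (hq1 : 1 ≤ q) (hq2 : q ≤ 2) (R : ℝ≥0∞) :
    GG q δ V p M t ≤ R ^ (q - 1) * (V.card * (ENNReal.ofReal (2 * δ)) ^ D) +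
      R ^ (q - 2) * ∑ v ∈ V, ∑ w ∈ V, volume (cube δ (cen p v M t) ∩ cube δ (cen p w M t)) := by
  rw [← cnt_one δ V p M t, ← cnt_two δ V p M t]
  rw [← lintegral_const_mul _ (cnt_meas1 δ V p M t), ← lintegral_const_mul _
    ((cnt_meas1 δ V p M t).pow_const _), ← lintegral_add_left ((cnt_meas1 δ V p M t).const_mul _)]
  unfold GG
  apply lintegral_mono
  intro x
  exact pw _ R ((cnt_le δ V p M t x).trans_lt (ENNReal.natCast_lt_top _)).ne q hq1 hq2

lemma GG_triv {D : ℕ} (q δ : ℝ) (V : Finset (Fin D → ℝ)) (p : (Fin D → ℝ) → (Fin D → ℝ))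
    (M : Fin D → ℝ) (t : ℝ) (hq1 : 1 ≤ q) :
    GG q δ V p M t ≤ (V.card : ℝ≥0∞) ^ (q - 1) * (V.card * (ENNReal.ofReal (2 * δ)) ^ D) := by
  rw [← cnt_one δ V p M t, ← lintegral_const_mul _ (cnt_meas1 δ V p M t)]
  unfold GG
  apply lintegral_mono
  intro x
  simp only
  have h2 := cnt_le δ V p M t x
  rcases eq_or_ne (cnt δ V p M t x) 0 with h0 | h0
  · rw [h0, ENNReal.zero_rpow_of_pos (by linarith)]
    simp
  have hf : cnt δ V p M t x ≠ ⊤ := (h2.trans_lt (ENNReal.natCast_lt_top _)).ne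
  calc cnt δ V p M t x ^ q = cnt δ V p M t x ^ (q - 1) * cnt δ V p M t x := by
        conv_rhs => rw [← ENNReal.rpow_one (cnt δ V p M t x), ← ENNReal.rpow_mul,
          ← ENNReal.rpow_add _ _ h0 hf]
        congr 1
        ring
    _ ≤ _ := by gcongr

end Pool.Agent.H147R3.KK
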