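import Mathlib
import Pool.Agent.H147R3.KK.P2
set_option autoImplicit false

/-! Kakeya, averaged over dilations of the positions: estimate on a block of heights. -/

namespace Pool.Agent.H147R3.KK

open MeasureTheory Set
open scoped ENNReal

/-- a dyadic block of heights -/
def Bk (τ : ℝ) : Set ℝ := {t : ℝ | τ ≤ |t| ∧ |t| ≤ 2 * τ}

lemma Bk_meas (τ : ℝ) : MeasurableSet (Bk τ) :=
  (measurableSet_le measurable_const measurable_id.abs).inter
    (measurableSet_le measurable_id.abs measurable_const)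

lemma Bk_vol (τ : ℝ) : volume (Bk τ) ≤ ENNReal.ofReal (4 * τ) := by
  calc volume (Bk τ) ≤ volume (Icc (-(2 * τ)) (2 * τ)) :=
        measure_mono (fun t ht => abs_le.1 ht.2)
    _ = ENNReal.ofReal (4 * τ) := by rw [Real.volume_Icc]; congr 1; ring

/-- heights for which the first coordinates of two slices are close -/
def E0 {d : ℕ} (δ τ : ℝ) (p : (Fin (d + 2) → ℝ) → (Fin (d + 2) → ℝ)) (v w : Fin (d + 2) → ℝ) :
    Set ℝ :=
  {t : ℝ | (τ ≤ |t| ∧ |t| ≤ 2 * τ) ∧ |(p v 0 - p w 0) + t * (v 0 - w 0)| ≤ 2 * δ}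

lemma E0_meas {d : ℕ} (δ τ : ℝ) (p : (Fin (d + 2) → ℝ) → (Fin (d + 2) → ℝ))
    (v w : Fin (d + 2) → ℝ) : MeasurableSet (E0 δ τ p v w) := by
  have e1 : Measurable fun t : ℝ => |(p v 0 - p w 0) + t * (v 0 - w 0)| := by fun_prop
  exact (Bk_meas τ).inter (measurableSet_le e1 measurable_const)

/-- dilations for which the other coordinates of two slices are close -/
def E1 {d : ℕ} (δ : ℝ) (p : (Fin (d + 2) → ℝ) → (Fin (d + 2) → ℝ)) (v w : Fin (d + 2) → ℝ)
    (t : ℝ) : Set (Fin (d + 1) → ℝ) :=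
  Set.univ.pi (fun j => {m : ℝ | |m * (p v j.succ - p w j.succ) + t * (v j.succ - w j.succ)|
    ≤ 2 * δ})

lemma E1_meas {d : ℕ} (δ : ℝ) (p : (Fin (d + 2) → ℝ) → (Fin (d + 2) → ℝ))
    (v w : Fin (d + 2) → ℝ) (t : ℝ) : MeasurableSet (E1 δ p v w t) := by
  apply MeasurableSet.univ_pi
  intro j
  have e1 : Measurable fun m : ℝ =>
    |m * (p v j.succ - p w j.succ) + t * (v j.succ - w j.succ)| := by fun_prop
  exact measurableSet_le e1 measurable_const

/-- the product of the kernels in the last coordinates -/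
noncomputable def P1 {d : ℕ} (δ τ α K : ℝ) (v w : Fin (d + 2) → ℝ) : ℝ≥0∞ :=
  ∏ j : Fin (d + 1), ENNReal.ofReal (K * (1 + τ / δ * |v j.succ - w j.succ|) ^ (-α))

lemma E1_vol {d : ℕ} {μ : Fin (d + 1) → Measure ℝ} {A α L : ℝ} (h : ∀ j, Reg (μ j) A α L)
    (hL : 0 < L) (hA : 0 ≤ A) (hα : 0 < α) (δ τ : ℝ) (hδ : 0 < δ) (hτ : 0 < τ)
    (p : (Fin (d + 2) → ℝ) → (Fin (d + 2) → ℝ))
    (v w : Fin (d + 2) → ℝ) (t : ℝ) (ht : τ ≤ |t|) :
    Measure.pi μ (E1 δ p v w t) ≤ P1 δ τ α (A * (16 * L) ^ α) v w := by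
  have : ∀ j, IsFiniteMeasure (μ j) := fun j => (h j).fin hL
  rw [E1, Measure.pi_pi]
  exact Finset.prod_le_prod' (fun j _ => pair1 (h j) hL hA hα _ _ _ _ _ hδ hτ ht)

lemma pair_le {d : ℕ} (δ τ : ℝ) (p : (Fin (d + 2) → ℝ) → (Fin (d + 2) → ℝ))
    (v w : Fin (d + 2) → ℝ) (t : ℝ) (ht : t ∈ Bk τ) (m : Fin (d + 1) → ℝ) :
    volume (cube δ (cen p v (Fin.cons 1 m) t) ∩ cube δ (cen p w (Fin.cons 1 m) t)) ≤
      (E0 δ τ p v w).indicator (fun _ => (ENNReal.ofReal (2 * δ)) ^ (d + 2)) t *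
      (E1 δ p v w t).indicator (fun _ => (1 : ℝ≥0∞)) m := by
  rcases Set.eq_empty_or_nonempty
    (cube δ (cen p v (Fin.cons 1 m) t) ∩ cube δ (cen p w (Fin.cons 1 m) t)) with h | h
  · rw [h]
    simp
  · obtain ⟨x, hx1, hx2⟩ := h
    have key : ∀ j, |(Fin.cons 1 m : Fin (d + 2) → ℝ) j * (p v j - p w j) + t * (v j - w j)|
        ≤ 2 * δ := by
      intro j
      have h1 := hx1 j (Set.mem_univ j)
      have h2 := hx2 j (Set.mem_univ j)
      simp only [cen, mem_Icc] at h1 h2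
      rw [abs_le]
      constructor <;> linarith [h1.1, h1.2, h2.1, h2.2]
    have h0 : t ∈ E0 δ τ p v w := by
      refine ⟨ht, ?_⟩
      have := key 0
      simp only [Fin.cons_zero, one_mul] at this
      exact this
    have h1 : m ∈ E1 δ p v w t := by
      intro j _
      have := key j.succ
      simp only [Fin.cons_succ] at this
      exact this
    rw [Set.indicator_of_mem h0, Set.indicator_of_mem h1, mul_one,
      ← cube_vol δ (cen p v (Fin.cons 1 m) t)]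
    exact measure_mono Set.inter_subset_left

lemma cons_meas (d : ℕ) : Measurable fun m : Fin d → ℝ => (Fin.cons 1 m : Fin (d + 1) → ℝ) := by
  rw [measurable_pi_iff]
  intro j
  refine Fin.cases ?_ (fun i => ?_) j
  · simp only [Fin.cons_zero]
    exact measurable_const
  · simp only [Fin.cons_succ]
    exact measurable_pi_apply i

/-- the moment at one height, averaged over the dilations -/
noncomputable def TT {d : ℕ} (μ : Fin (d + 1) → Measure ℝ) (q δ : ℝ)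
    (V : Finset (Fin (d + 2) → ℝ)) (p : (Fin (d + 2) → ℝ) → (Fin (d + 2) → ℝ)) (t : ℝ) : ℝ≥0∞ :=
  ∫⁻ m, GG q δ V p (Fin.cons 1 m) t ∂(Measure.pi μ)

lemma pi_total {d : ℕ} {μ : Fin d → Measure ℝ} {A α L : ℝ} (h : ∀ j, Reg (μ j) A α L)
    (hL : 0 < L) (hA : 0 ≤ A) :
    Measure.pi μ Set.univ ≤ ENNReal.ofReal ((A * (2 * L) ^ α) ^ d) := by
  have : ∀ j, IsFiniteMeasure (μ j) := fun j => (h j).fin hL
  rw [Measure.pi_univ, ENNReal.ofReal_pow (by positivity)]
  calc ∏ j, μ j Set.univ ≤ ∏ j : Fin d, ENNReal.ofReal (A * (2 * L) ^ α) :=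
        Finset.prod_le_prod' (fun j _ => (h j).total hL)
    _ = _ := by simp

lemma TT_le {d : ℕ} {μ : Fin (d + 1) → Measure ℝ} {A α L : ℝ} (h : ∀ j, Reg (μ j) A α L)
    (hL : 0 < L) (hA : 0 ≤ A) (hα : 0 < α) (q : ℝ) (hq1 : 1 ≤ q) (hq2 : q ≤ 2)
    (δ τ : ℝ) (hδ : 0 < δ) (hτ : 0 < τ)
    (V : Finset (Fin (d + 2) → ℝ)) (p : (Fin (d + 2) → ℝ) → (Fin (d + 2) → ℝ)) (t : ℝ)
    (ht : t ∈ Bk τ) (R : ℝ≥0∞) (hR0 : R ≠ 0) (hR : R ≠ ⊤) :
    TT μ q δ V p t ≤ R ^ (q - 1) * (V.card * (ENNReal.ofReal (2 * δ)) ^ (d + 2)) *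
        ENNReal.ofReal ((A * (2 * L) ^ α) ^ (d + 1)) +
      R ^ (q - 2) * ∑ v ∈ V, ∑ w ∈ V,
        (E0 δ τ p v w).indicator (fun _ => (ENNReal.ofReal (2 * δ)) ^ (d + 2)) t *
          P1 δ τ α (A * (16 * L) ^ α) v w := by
  have hfin : ∀ j, IsFiniteMeasure (μ j) := fun j => (h j).fin hL
  have hRt : ∀ r : ℝ, R ^ r ≠ ⊤ := by
    intro r
    rw [Ne, ENNReal.rpow_eq_top_iff]
    tauto
  have hm : ∀ v w, Measurable fun m : Fin (d + 1) → ℝ =>
      (E0 δ τ p v w).indicator (fun _ => (ENNReal.ofReal (2 * δ)) ^ (d + 2)) t *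
      (E1 δ p v w t).indicator (fun _ => (1 : ℝ≥0∞)) m := fun v w =>
    (measurable_const.indicator (E1_meas δ p v w t)).const_mul _
  have hm2 : ∀ v, Measurable fun m : Fin (d + 1) → ℝ => ∑ w ∈ V,
      (E0 δ τ p v w).indicator (fun _ => (ENNReal.ofReal (2 * δ)) ^ (d + 2)) t *
      (E1 δ p v w t).indicator (fun _ => (1 : ℝ≥0∞)) m := fun v =>
    Finset.measurable_sum _ (fun w _ => hm v w)
  calc TT μ q δ V p t ≤ ∫⁻ m, (R ^ (q - 1) * (V.card * (ENNReal.ofReal (2 * δ)) ^ (d + 2)) +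
      R ^ (q - 2) * ∑ v ∈ V, ∑ w ∈ V,
        (E0 δ τ p v w).indicator (fun _ => (ENNReal.ofReal (2 * δ)) ^ (d + 2)) t *
      (E1 δ p v w t).indicator (fun _ => (1 : ℝ≥0∞)) m) ∂(Measure.pi μ) := by
        unfold TT
        apply lintegral_mono
        intro m
        refine (GG_le q δ V p _ t hq1 hq2 R).trans ?_
        exact add_le_add le_rfl (mul_le_mul' le_rfl (Finset.sum_le_sum (fun v _ =>
          Finset.sum_le_sum (fun w _ => pair_le δ τ p v w t ht m))))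
    _ = R ^ (q - 1) * (V.card * (ENNReal.ofReal (2 * δ)) ^ (d + 2)) * Measure.pi μ Set.univ +
      R ^ (q - 2) * ∑ v ∈ V, ∑ w ∈ V,
        (E0 δ τ p v w).indicator (fun _ => (ENNReal.ofReal (2 * δ)) ^ (d + 2)) t *
          Measure.pi μ (E1 δ p v w t) := by
        rw [lintegral_add_left measurable_const, lintegral_const,
          lintegral_const_mul _ (Finset.measurable_sum _ (fun v _ => hm2 v)),
          lintegral_finsetSum _ (fun v _ => hm2 v)]
        congr 2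
        refine Finset.sum_congr rfl (fun v _ => ?_)
        rw [lintegral_finsetSum _ (fun w _ => hm v w)]
        refine Finset.sum_congr rfl (fun w _ => ?_)
        rw [lintegral_const_mul _ (measurable_const.indicator (E1_meas δ p v w t)),
          lintegral_indicator_const (E1_meas δ p v w t), one_mul]
    _ ≤ _ := by
        exact add_le_add (mul_le_mul' le_rfl (pi_total h hL hA))
          (mul_le_mul' le_rfl (Finset.sum_le_sum (fun v _ =>
          Finset.sum_le_sum (fun w _ => mul_le_mul' le_rfl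
            (E1_vol h hL hA hα δ τ hδ hτ p v w t ht.1)))))

theorem block (d : ℕ) (A α L s : ℝ) (hA : 0 ≤ A) (hα0 : 0 < α) (hα1 : α ≤ 1) (hL : 0 < L)
    (hs : 1 < s) : ∃ K : ℝ, 0 ≤ K ∧ ∀ μ : Fin (d + 1) → Measure ℝ, (∀ j, Reg (μ j) A α L) →
      ∀ q : ℝ, 1 ≤ q → q ≤ 2 → ∀ δ τ : ℝ, 0 < δ → 0 < τ → τ ≤ 1 →
      ∀ V : Finset (Fin (d + 2) → ℝ), 0 < V.card →
      (∀ v ∈ V, ∀ w ∈ V, v ≠ w → δ ^ 2 ≤ ∑ j, (v j - w j) ^ 2) →
      ∀ p : (Fin (d + 2) → ℝ) → (Fin (d + 2) → ℝ),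
      ∫⁻ t in Bk τ, TT μ q δ V p t ≤
        ENNReal.ofReal (K * τ * δ ^ (d + 2) * V.card *
          ((V.card : ℝ) ^ (1 - α / s) * ((τ⁻¹) ^ (d + 2)) ^ (α / s)) ^ (q - 1)) := by
  obtain ⟨K, hK0, hK⟩ := ker_sum (d + 2) (by omega) α hα0 hα1 s hs
  refine ⟨2 ^ (d + 2) * ((A * (2 * L) ^ α) ^ (d + 1) * 4 +
    8 * (A * (16 * L) ^ α) ^ (d + 1) * K), by positivity, ?_⟩
  intro μ h q hq1 hq2 δ τ hδ hτ hτ1 V hN hV p
  have hNr : (0 : ℝ) < V.card := by exact_mod_cast hN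
  set M₀ : ℝ := (V.card : ℝ) ^ (1 - α / s) * ((τ⁻¹) ^ (d + 2)) ^ (α / s) with hM₀
  have hM₀p : 0 < M₀ := by positivity
  set R : ℝ≥0∞ := ENNReal.ofReal M₀ with hR
  have hR0 : R ≠ 0 := by
    rw [hR]
    exact (ENNReal.ofReal_pos.2 hM₀p).ne'
  have hRt : R ≠ ⊤ := ENNReal.ofReal_ne_top
  have hker : ∀ v w : Fin (d + 2) → ℝ,
      ENNReal.ofReal (8 * τ * (1 + τ / δ * |v 0 - w 0|) ^ (-α)) *
        P1 δ τ α (A * (16 * L) ^ α) v w =
      ENNReal.ofReal (8 * τ * (A * (16 * L) ^ α) ^ (d + 1) *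
        ∏ j, (1 + τ / δ * |w j - v j|) ^ (-α)) := by
    intro v w
    unfold P1
    rw [← ENNReal.ofReal_prod_of_nonneg (fun j _ => by positivity),
      ← ENNReal.ofReal_mul (by positivity), Finset.prod_mul_distrib]
    congr 1
    simp only [Finset.prod_const, Finset.card_univ, Fintype.card_fin]
    conv_rhs => rw [Fin.prod_univ_succ]
    rw [abs_sub_comm (w 0) (v 0)]
    have : ∀ j : Fin (d + 1), |w j.succ - v j.succ| = |v j.succ - w j.succ| :=
      fun j => abs_sub_comm _ _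
    simp only [this]
    ring
  have hpair : ∑ v ∈ V, ∑ w ∈ V, (ENNReal.ofReal (2 * δ)) ^ (d + 2) *
      ENNReal.ofReal (8 * τ * (1 + τ / δ * |v 0 - w 0|) ^ (-α)) *
        P1 δ τ α (A * (16 * L) ^ α) v w ≤
      ENNReal.ofReal ((2 * δ) ^ (d + 2) * (V.card * (8 * τ * (A * (16 * L) ^ α) ^ (d + 1) *
        (K * M₀)))) := by
    rw [ENNReal.ofReal_mul (p := (2 * δ) ^ (d + 2)) (by positivity),
      ENNReal.ofReal_pow (by positivity)]
    simp only [mul_assoc ((ENNReal.ofReal (2 * δ)) ^ (d + 2))]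
    simp only [hker, ← Finset.mul_sum]
    gcongr
    have h1 : ∀ v ∈ V, ∑ w ∈ V, ENNReal.ofReal (8 * τ * (A * (16 * L) ^ α) ^ (d + 1) *
        ∏ j, (1 + τ / δ * |w j - v j|) ^ (-α)) ≤
        ENNReal.ofReal (8 * τ * (A * (16 * L) ^ α) ^ (d + 1) * (K * M₀)) := by
      intro v _
      rw [← ENNReal.ofReal_sum_of_nonneg (fun v _ => by positivity), ← Finset.mul_sum]
      apply ENNReal.ofReal_le_ofReal
      gcongr
      exact hK δ τ hδ hτ hτ1 V hN hV v
    calc _ ≤ ∑ v ∈ V, ENNReal.ofReal (8 * τ * (A * (16 * L) ^ α) ^ (d + 1) * (K * M₀)) :=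
          Finset.sum_le_sum h1
      _ = _ := by
        rw [Finset.sum_const, nsmul_eq_mul, ENNReal.ofReal_mul (by positivity : (0:ℝ) ≤ V.card)]
        simp
  calc ∫⁻ t in Bk τ, TT μ q δ V p t ≤
        ∫⁻ t in Bk τ, (R ^ (q - 1) * (V.card * (ENNReal.ofReal (2 * δ)) ^ (d + 2)) *
        ENNReal.ofReal ((A * (2 * L) ^ α) ^ (d + 1)) +
      R ^ (q - 2) * ∑ v ∈ V, ∑ w ∈ V,
        (E0 δ τ p v w).indicator (fun _ => (ENNReal.ofReal (2 * δ)) ^ (d + 2)) t *
          P1 δ τ α (A * (16 * L) ^ α) v w) :=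
        setLIntegral_mono' (Bk_meas τ) (fun t ht =>
          TT_le h hL hA hα0 q hq1 hq2 δ τ hδ hτ V p t ht R hR0 hRt)
    _ ≤ R ^ (q - 1) * (V.card * (ENNReal.ofReal (2 * δ)) ^ (d + 2)) *
        ENNReal.ofReal ((A * (2 * L) ^ α) ^ (d + 1)) * ENNReal.ofReal (4 * τ) +
      R ^ (q - 2) * ∑ v ∈ V, ∑ w ∈ V, (ENNReal.ofReal (2 * δ)) ^ (d + 2) *
      ENNReal.ofReal (8 * τ * (1 + τ / δ * |v 0 - w 0|) ^ (-α)) *
        P1 δ τ α (A * (16 * L) ^ α) v w := by
        have hm : ∀ v w, Measurable fun t : ℝ =>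
            (E0 δ τ p v w).indicator (fun _ => (ENNReal.ofReal (2 * δ)) ^ (d + 2)) t *
              P1 δ τ α (A * (16 * L) ^ α) v w := fun v w =>
          (measurable_const.indicator (E0_meas δ τ p v w)).mul_const _
        have hm2 : ∀ v, Measurable fun t : ℝ => ∑ w ∈ V,
            (E0 δ τ p v w).indicator (fun _ => (ENNReal.ofReal (2 * δ)) ^ (d + 2)) t *
              P1 δ τ α (A * (16 * L) ^ α) v w := fun v =>
          Finset.measurable_sum _ (fun w _ => hm v w)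
        rw [lintegral_add_left measurable_const, setLIntegral_const,
          lintegral_const_mul _ (Finset.measurable_sum _ (fun v _ => hm2 v)),
          lintegral_finsetSum _ (fun v _ => hm2 v)]
        refine add_le_add (mul_le_mul' le_rfl (Bk_vol τ)) (mul_le_mul' le_rfl ?_)
        refine Finset.sum_le_sum (fun v _ => ?_)
        rw [lintegral_finsetSum _ (fun w _ => hm v w)]
        refine Finset.sum_le_sum (fun w _ => ?_)
        rw [lintegral_mul_const _ (measurable_const.indicator (E0_meas δ τ p v w))]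
        refine mul_le_mul' ?_ le_rfl
        refine (setLIntegral_le_lintegral _ _).trans ?_
        rw [lintegral_indicator_const (E0_meas δ τ p v w)]
        exact mul_le_mul' le_rfl (pair0 hα1 _ _ _ _ hδ hτ)
    _ ≤ R ^ (q - 1) * (V.card * (ENNReal.ofReal (2 * δ)) ^ (d + 2)) *
        ENNReal.ofReal ((A * (2 * L) ^ α) ^ (d + 1)) * ENNReal.ofReal (4 * τ) +
      R ^ (q - 2) * ENNReal.ofReal ((2 * δ) ^ (d + 2) *
        (V.card * (8 * τ * (A * (16 * L) ^ α) ^ (d + 1) * (K * M₀)))) := by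
        exact add_le_add le_rfl (mul_le_mul' le_rfl hpair)
    _ = _ := by
        have hMr : ∀ r : ℝ, R ^ r = ENNReal.ofReal (M₀ ^ r) := fun r => by
          rw [hR, ENNReal.ofReal_rpow_of_pos hM₀p]
        have h4 : (V.card : ℝ≥0∞) = ENNReal.ofReal V.card := by simp
        rw [hMr, hMr, h4, ← ENNReal.ofReal_pow (by positivity), ← ENNReal.ofReal_mul (by positivity),
          ← ENNReal.ofReal_mul (by positivity), ← ENNReal.ofReal_mul (by positivity),
          ← ENNReal.ofReal_mul (by positivity), ← ENNReal.ofReal_mul (by positivity),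
          ← ENNReal.ofReal_add (by positivity) (by positivity)]
        congr 1
        have h5 : M₀ ^ (q - 1) = M₀ ^ (q - 2) * M₀ := by
          nth_rewrite 3 [← Real.rpow_one M₀]
          rw [← Real.rpow_add hM₀p]
          congr 1
          ring
        rw [h5, mul_pow]
        ring

theorem block_triv {d : ℕ} {μ : Fin (d + 1) → Measure ℝ} {A α L : ℝ} (h : ∀ j, Reg (μ j) A α L)
    (hL : 0 < L) (hA : 0 ≤ A) (q : ℝ) (hq1 : 1 ≤ q)
    (δ τ : ℝ) (hδ : 0 < δ) (hτ : 0 < τ)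
    (V : Finset (Fin (d + 2) → ℝ)) (hN : 0 < V.card)
    (p : (Fin (d + 2) → ℝ) → (Fin (d + 2) → ℝ)) :
    ∫⁻ t in Bk τ, TT μ q δ V p t ≤
      ENNReal.ofReal (4 * 2 ^ (d + 2) * (A * (2 * L) ^ α) ^ (d + 1) * τ * δ ^ (d + 2) * V.card *
        (V.card : ℝ) ^ (q - 1)) := by
  have hNr : (0 : ℝ) < V.card := by exact_mod_cast hN
  have h1 : ∀ t, TT μ q δ V p t ≤
      (V.card : ℝ≥0∞) ^ (q - 1) * (V.card * (ENNReal.ofReal (2 * δ)) ^ (d + 2)) *
        ENNReal.ofReal ((A * (2 * L) ^ α) ^ (d + 1)) := by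
    intro t
    unfold TT
    refine (lintegral_mono (fun m => GG_triv q δ V p (Fin.cons 1 m) t hq1)).trans ?_
    rw [lintegral_const]
    exact mul_le_mul' le_rfl (pi_total h hL hA)
  refine (lintegral_mono (fun t => h1 t)).trans ?_
  rw [setLIntegral_const]
  refine (mul_le_mul' le_rfl (Bk_vol τ)).trans (le_of_eq ?_)
  have h4 : (V.card : ℝ≥0∞) = ENNReal.ofReal V.card := by simp
  rw [h4, ENNReal.ofReal_rpow_of_pos hNr, ← ENNReal.ofReal_pow (by positivity),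
    ← ENNReal.ofReal_mul (by positivity),
    ← ENNReal.ofReal_mul (by positivity), ← ENNReal.ofReal_mul (by positivity),
    ← ENNReal.ofReal_mul (by positivity)]
  congr 1
  rw [mul_pow]
  ring

end Pool.Agent.H147R3.KK
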