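import Mathlib
import Pool.Agent.H147R3.KK.P3
set_option autoImplicit false

/-! Kakeya, averaged over dilations of the positions: assembly. -/

namespace Pool.Agent.H147R3.KK

open MeasureTheory Set
open scoped ENNReal

lemma decomp (Θ : ℝ → ℝ≥0∞) (hΘ : Measurable Θ) :
    ∫⁻ t in Icc (-1 : ℝ) 1, Θ t ≤
      ∫⁻ τ in Ioc (0 : ℝ) 1, ENNReal.ofReal (2 / τ) * ∫⁻ t in Bk τ, Θ t := by
  set S : Set (ℝ × ℝ) := {z : ℝ × ℝ | z.1 ≤ |z.2| ∧ |z.2| ≤ 2 * z.1} with hS
  have hSm : MeasurableSet S :=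
    (measurableSet_le measurable_fst measurable_snd.abs).inter
      (measurableSet_le measurable_snd.abs (measurable_fst.const_mul _))
  have hfm : Measurable fun z : ℝ × ℝ => S.indicator (fun z => ENNReal.ofReal (2 / z.1) * Θ z.2) z := by
    have e1 : Measurable fun z : ℝ × ℝ => ENNReal.ofReal (2 / z.1) :=
      (measurable_const.div measurable_fst).ennreal_ofReal
    exact (e1.mul (hΘ.comp measurable_snd)).indicator hSm
  have h1 : ∀ τ : ℝ, ENNReal.ofReal (2 / τ) * ∫⁻ t in Bk τ, Θ t =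
      ∫⁻ t, S.indicator (fun z => ENNReal.ofReal (2 / z.1) * Θ z.2) (τ, t) := by
    intro τ
    rw [← lintegral_const_mul _ hΘ, ← lintegral_indicator (Bk_meas τ)]
    apply lintegral_congr
    intro t
    by_cases ht : t ∈ Bk τ
    · have h2 : (τ, t) ∈ S := ht
      rw [indicator_of_mem ht, indicator_of_mem h2]
    · have h2 : (τ, t) ∉ S := ht
      rw [indicator_of_notMem ht, indicator_of_notMem h2]
  simp only [h1]
  have h2 : ∫⁻ τ in Ioc (0 : ℝ) 1, ∫⁻ t, S.indicator (fun z => ENNReal.ofReal (2 / z.1) * Θ z.2) (τ, t)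
      = ∫⁻ t, ∫⁻ τ in Ioc (0 : ℝ) 1,
        S.indicator (fun z => ENNReal.ofReal (2 / z.1) * Θ z.2) (τ, t) :=
    lintegral_lintegral_swap hfm.aemeasurable
  rw [h2, ← lintegral_indicator measurableSet_Icc]
  have hae : ∀ᵐ t : ℝ, t ≠ 0 := by
    have : ({0} : Set ℝ)ᶜ ∈ ae volume := compl_mem_ae_iff.2 (measure_singleton 0)
    filter_upwards [this] with t ht
    simpa using ht
  apply lintegral_mono_ae
  filter_upwards [hae] with t ht
  by_cases ht1 : t ∈ Icc (-1 : ℝ) 1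
  · rw [indicator_of_mem ht1]
    have hpos : 0 < |t| := abs_pos.2 ht
    have hle : |t| ≤ 1 := abs_le.2 ht1
    have hsub : Icc (|t| / 2) |t| ⊆ Ioc (0 : ℝ) 1 := fun τ hτ => ⟨by linarith [hτ.1], hτ.2.trans hle⟩
    calc Θ t = ∫⁻ τ in Icc (|t| / 2) |t|, ENNReal.ofReal (2 / |t|) * Θ t := by
          rw [setLIntegral_const, Real.volume_Icc, mul_assoc, mul_comm (Θ t), ← mul_assoc,
            ← ENNReal.ofReal_mul (by positivity)]
          have : 2 / |t| * (|t| - |t| / 2) = 1 := by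
            field_simp
            norm_num
          rw [this, ENNReal.ofReal_one, one_mul]
      _ ≤ ∫⁻ τ in Icc (|t| / 2) |t|,
            S.indicator (fun z => ENNReal.ofReal (2 / z.1) * Θ z.2) (τ, t) := by
          apply setLIntegral_mono' measurableSet_Icc
          intro τ hτ
          have h3 : (τ, t) ∈ S := ⟨hτ.2, by linarith [hτ.1]⟩
          rw [indicator_of_mem h3]
          simp only
          gcongr
          · linarith [hτ.1]
          · exact hτ.2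
      _ ≤ _ := lintegral_mono_set hsub
  · rw [indicator_of_notMem ht1]
    exact zero_le

lemma tail1 (a : ℝ) (ha : 1 < a) (r : ℝ) (hr : 0 < r) :
    ∫⁻ t in Ioi r, ENNReal.ofReal (t ^ (-a)) = ENNReal.ofReal (r ^ (1 - a) / (a - 1)) := by
  rw [← ofReal_integral_eq_lintegral_ofReal
    (integrableOn_Ioi_rpow_of_lt (by linarith) hr)
    ((ae_restrict_iff' measurableSet_Ioi).2 (Filter.Eventually.of_forall (fun t ht => by
      have : 0 < t := hr.trans ht
      positivity))), integral_Ioi_rpow_of_lt (by linarith) hr]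
  congr 1
  have e2 : -a + 1 = 1 - a := by ring
  rw [e2, ← neg_div_neg_eq, neg_neg]
  congr 1
  ring

lemma TT_meas {d : ℕ} (μ : Fin (d + 1) → Measure ℝ) [∀ j, IsFiniteMeasure (μ j)] (q δ : ℝ)
    (V : Finset (Fin (d + 2) → ℝ)) (p : (Fin (d + 2) → ℝ) → (Fin (d + 2) → ℝ)) :
    Measurable (TT μ q δ V p) := by
  unfold TT
  have h1 : Measurable fun z : ℝ × (Fin (d + 1) → ℝ) =>
      (((Fin.cons 1 z.2 : Fin (d + 2) → ℝ), z.1) : (Fin (d + 2) → ℝ) × ℝ) :=
    ((cons_meas (d + 1)).comp measurable_snd).prodMk measurable_fst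
  exact ((GG_meas q δ V p).comp h1).lintegral_prod_right'

theorem int_t (d : ℕ) (A α L q : ℝ) (hA : 0 ≤ A) (hα0 : 0 < α) (hα1 : α ≤ 1) (hL : 0 < L)
    (hq : 1 < (d + 2) * α * (q - 1)) (hq1 : 1 ≤ q) (hq2 : q ≤ 2) :
    ∃ C : ℝ, 0 ≤ C ∧ ∀ μ : Fin (d + 1) → Measure ℝ, (∀ j, Reg (μ j) A α L) →
      ∀ δ : ℝ, 0 < δ → ∀ V : Finset (Fin (d + 2) → ℝ), 0 < V.card →
      (∀ v ∈ V, ∀ w ∈ V, v ≠ w → δ ^ 2 ≤ ∑ j, (v j - w j) ^ 2) →
      ∀ p : (Fin (d + 2) → ℝ) → (Fin (d + 2) → ℝ),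
      ∫⁻ t in Icc (-1 : ℝ) 1, TT μ q δ V p t ≤
        ENNReal.ofReal (C * δ ^ (d + 2) * (V.card : ℝ) ^ (q - 1 / ((d : ℝ) + 2))) := by
  have hd : (0 : ℝ) ≤ d := Nat.cast_nonneg d
  set D : ℝ := (d : ℝ) + 2 with hD
  have hD0 : 0 < D := by linarith
  set s : ℝ := (1 + D * α * (q - 1)) / 2 with hs
  have hs1 : 1 < s := by rw [hs]; linarith
  have hs2 : s < D * α * (q - 1) := by rw [hs]; linarith
  set a : ℝ := D * α * (q - 1) / s with ha
  have ha1 : 1 < a := by rw [ha, one_lt_div (by linarith)]; exact hs2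
  obtain ⟨K, hK0, hK⟩ := block d A α L s hA hα0 hα1 hL hs1
  set K' : ℝ := 4 * 2 ^ (d + 2) * (A * (2 * L) ^ α) ^ (d + 1) with hK'
  have hK'0 : 0 ≤ K' := by positivity
  have hKa : 0 ≤ K / (a - 1) := div_nonneg hK0 (by linarith)
  refine ⟨2 * K' + 2 * (K / (a - 1)), by positivity, ?_⟩
  intro μ h δ hδ V hN hV p
  have hfin : ∀ j, IsFiniteMeasure (μ j) := fun j => (h j).fin hL
  have hNr : (0 : ℝ) < V.card := by exact_mod_cast hN
  set N : ℝ := (V.card : ℝ) with hNdef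
  set r : ℝ := N ^ (-(1 / D)) with hr
  have hr0 : 0 < r := by positivity
  have hb1 : ∀ τ : ℝ, 0 < τ → ENNReal.ofReal (2 / τ) * ∫⁻ t in Bk τ, TT μ q δ V p t ≤
      ENNReal.ofReal (2 * K' * δ ^ (d + 2) * N * N ^ (q - 1)) := by
    intro τ hτ
    refine (mul_le_mul' le_rfl (block_triv h hL hA q hq1 δ τ hδ hτ V hN p)).trans (le_of_eq ?_)
    rw [← ENNReal.ofReal_mul (by positivity)]
    congr 1
    rw [hK', ← hNdef]
    field_simp
  have hb2 : ∀ τ : ℝ, 0 < τ → τ ≤ 1 → ENNReal.ofReal (2 / τ) * ∫⁻ t in Bk τ, TT μ q δ V p t ≤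
      ENNReal.ofReal (2 * K * δ ^ (d + 2) * N * N ^ ((1 - α / s) * (q - 1))) *
        ENNReal.ofReal (τ ^ (-a)) := by
    intro τ hτ hτ1
    refine (mul_le_mul' le_rfl (hK μ h q hq1 hq2 δ τ hδ hτ hτ1 V hN hV p)).trans (le_of_eq ?_)
    rw [← ENNReal.ofReal_mul (by positivity), ← ENNReal.ofReal_mul (by positivity)]
    congr 1
    have e0 : (((τ⁻¹) ^ (d + 2)) ^ (α / s)) ^ (q - 1) = τ ^ (-a) := by
      rw [← Real.rpow_mul (by positivity), ← Real.rpow_natCast, ← Real.rpow_mul (by positivity),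
        Real.inv_rpow (by positivity), ← Real.rpow_neg (by positivity)]
      congr 1
      rw [ha, hD]
      push_cast
      ring
    rw [Real.mul_rpow (by positivity) (by positivity), e0, ← Real.rpow_mul (by positivity),
      ← hNdef]
    field_simp
  have hcov : Ioc (0 : ℝ) 1 ⊆ (Ioc 0 r) ∪ (Ioi r ∩ Ioc 0 1) := by
    intro t ht
    rcases le_or_gt t r with h | h
    · left
      exact ⟨ht.1, h⟩
    · right
      exact ⟨h, ht⟩
  calc ∫⁻ t in Icc (-1 : ℝ) 1, TT μ q δ V p t ≤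
        ∫⁻ τ in Ioc (0 : ℝ) 1, ENNReal.ofReal (2 / τ) * ∫⁻ t in Bk τ, TT μ q δ V p t :=
        decomp _ (TT_meas μ q δ V p)
    _ ≤ ∫⁻ τ in (Ioc 0 r) ∪ (Ioi r ∩ Ioc 0 1),
          ENNReal.ofReal (2 / τ) * ∫⁻ t in Bk τ, TT μ q δ V p t :=
        lintegral_mono_set hcov
    _ ≤ (∫⁻ τ in Ioc 0 r, ENNReal.ofReal (2 / τ) * ∫⁻ t in Bk τ, TT μ q δ V p t) +
        ∫⁻ τ in (Ioi r ∩ Ioc 0 1), ENNReal.ofReal (2 / τ) * ∫⁻ t in Bk τ, TT μ q δ V p t :=
        lintegral_union_le _ _ _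
    _ ≤ (∫⁻ τ in Ioc 0 r, ENNReal.ofReal (2 * K' * δ ^ (d + 2) * N * N ^ (q - 1))) +
        ∫⁻ τ in (Ioi r ∩ Ioc 0 1),
          ENNReal.ofReal (2 * K * δ ^ (d + 2) * N * N ^ ((1 - α / s) * (q - 1))) *
            ENNReal.ofReal (τ ^ (-a)) := by
        apply add_le_add
        · exact setLIntegral_mono' measurableSet_Ioc (fun τ hτ => hb1 τ hτ.1)
        · exact setLIntegral_mono' (measurableSet_Ioi.inter measurableSet_Ioc)
            (fun τ hτ => hb2 τ hτ.2.1 hτ.2.2)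
    _ ≤ ENNReal.ofReal (2 * K' * δ ^ (d + 2) * N * N ^ (q - 1)) * ENNReal.ofReal r +
        ENNReal.ofReal (2 * K * δ ^ (d + 2) * N * N ^ ((1 - α / s) * (q - 1))) *
          ENNReal.ofReal (r ^ (1 - a) / (a - 1)) := by
        rw [setLIntegral_const, Real.volume_Ioc, sub_zero,
          lintegral_const_mul _ (by fun_prop), ← tail1 a ha1 r hr0]
        exact add_le_add le_rfl (mul_le_mul' le_rfl (lintegral_mono_set inter_subset_left))
    _ = _ := by
        have h5 : 0 ≤ r ^ (1 - a) / (a - 1) := div_nonneg (by positivity) (by linarith)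
        rw [← ENNReal.ofReal_mul (by positivity),
          ← ENNReal.ofReal_mul (by positivity), ← ENNReal.ofReal_add (by positivity) (by positivity)]
        congr 1
        have h1 : r ^ (1 - a) = N ^ ((a - 1) / D) := by
          rw [hr, ← Real.rpow_mul (by positivity)]
          congr 1
          ring
        have h2 : N * N ^ (q - 1) * r = N ^ (q - 1 / D) := by
          rw [hr]
          nth_rewrite 1 [← Real.rpow_one N]
          rw [← Real.rpow_add hNr, ← Real.rpow_add hNr]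
          congr 1
          ring
        have h3 : N * N ^ ((1 - α / s) * (q - 1)) * N ^ ((a - 1) / D) = N ^ (q - 1 / D) := by
          nth_rewrite 1 [← Real.rpow_one N]
          rw [← Real.rpow_add hNr, ← Real.rpow_add hNr]
          congr 1
          rw [ha]
          have : s ≠ 0 := by linarith
          field_simp
          ring
        rw [h1]
        have h4 : 2 * K * δ ^ (d + 2) * N * N ^ ((1 - α / s) * (q - 1)) * (N ^ ((a - 1) / D) / (a - 1))
            = 2 * (K / (a - 1)) * δ ^ (d + 2) *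
              (N * N ^ ((1 - α / s) * (q - 1)) * N ^ ((a - 1) / D)) := by
          ring
        have h6 : 2 * K' * δ ^ (d + 2) * N * N ^ (q - 1) * r =
            2 * K' * δ ^ (d + 2) * (N * N ^ (q - 1) * r) := by ring
        rw [h4, h3, h6, h2]
        ring

lemma swap_TT {d : ℕ} (μ : Fin (d + 1) → Measure ℝ) [∀ j, IsFiniteMeasure (μ j)] (q δ : ℝ)
    (V : Finset (Fin (d + 2) → ℝ)) (p : (Fin (d + 2) → ℝ) → (Fin (d + 2) → ℝ)) :
    ∫⁻ m, (∫⁻ t in Icc (-1 : ℝ) 1, GG q δ V p (Fin.cons 1 m) t) ∂(Measure.pi μ) =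
      ∫⁻ t in Icc (-1 : ℝ) 1, TT μ q δ V p t := by
  unfold TT
  have hcomp : Measurable (fun z : (Fin (d + 1) → ℝ) × ℝ =>
      GG q δ V p (Fin.cons 1 z.1 : Fin (d + 2) → ℝ) z.2) := by
    have h1 : Measurable fun z : (Fin (d + 1) → ℝ) × ℝ =>
        (((Fin.cons 1 z.1 : Fin (d + 2) → ℝ), z.2) : (Fin (d + 2) → ℝ) × ℝ) :=
      ((cons_meas (d + 1)).comp measurable_fst).prodMk measurable_snd
    have h2 : Measurable ((fun z : (Fin (d + 2) → ℝ) × ℝ => GG q δ V p z.1 z.2) ∘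
      (fun z : (Fin (d + 1) → ℝ) × ℝ =>
        (((Fin.cons 1 z.1 : Fin (d + 2) → ℝ), z.2) : (Fin (d + 2) → ℝ) × ℝ))) :=
      (GG_meas q δ V p).comp h1
    simpa only [Function.comp_def] using h2
  generalize hF : (fun (m : Fin (d + 1) → ℝ) (t : ℝ) =>
    GG q δ V p (Fin.cons 1 m : Fin (d + 2) → ℝ) t) = F
  have hF' : ∀ m t, GG q δ V p (Fin.cons 1 m : Fin (d + 2) → ℝ) t = F m t := fun m t => by rw [← hF]
  simp only [hF'] at hcomp ⊢
  have hu : AEMeasurable (Function.uncurry F) ((Measure.pi μ).prod (volume.restrict (Icc (-1) 1))) :=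
    hcomp.aemeasurable
  exact lintegral_lintegral_swap hu

/-- the tube of radius `δ` with axis `{(a + t w, t) : |t| ≤ 1}` -/
def tube {D : ℕ} (δ : ℝ) (a w : Fin D → ℝ) : Set ((Fin D → ℝ) × ℝ) :=
  {z | |z.2| ≤ 1 ∧ ∑ j, (z.1 j - (a j + z.2 * w j)) ^ 2 ≤ δ ^ 2}

lemma tube_le {D : ℕ} (q : ℝ) (hq : 0 < q) (δ : ℝ) (hδ : 0 < δ) (V : Finset (Fin D → ℝ))
    (p : (Fin D → ℝ) → (Fin D → ℝ)) (M : Fin D → ℝ) :
    ∫⁻ z : (Fin D → ℝ) × ℝ,
      (∑ v ∈ V, (tube δ (fun j => M j * p v j) v).indicator (fun _ => (1 : ℝ≥0∞)) z) ^ q ≤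
      ∫⁻ t in Icc (-1 : ℝ) 1, GG q δ V p M t := by
  have hm0 : Measurable fun z : (Fin D → ℝ) × ℝ =>
      (((M, z.2), z.1) : ((Fin D → ℝ) × ℝ) × (Fin D → ℝ)) :=
    (measurable_const.prodMk measurable_snd).prodMk measurable_fst
  have hm1 : Measurable fun z : (Fin D → ℝ) × ℝ =>
      ({z : (Fin D → ℝ) × ℝ | z.2 ∈ Icc (-1 : ℝ) 1}).indicator
      (fun z => cnt δ V p M z.2 z.1 ^ q) z :=
    (((cnt_meas δ V p).comp hm0).pow_const q).indicator
      (measurable_snd measurableSet_Icc)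
  calc _ ≤ ∫⁻ z : (Fin D → ℝ) × ℝ, ({z : (Fin D → ℝ) × ℝ | z.2 ∈ Icc (-1 : ℝ) 1}).indicator
            (fun z => cnt δ V p M z.2 z.1 ^ q) z := by
        apply lintegral_mono
        intro z
        simp only
        by_cases hz : z.2 ∈ Icc (-1 : ℝ) 1
        · rw [indicator_of_mem (show z ∈ {z : (Fin D → ℝ) × ℝ | z.2 ∈ Icc (-1 : ℝ) 1} from hz)]
          gcongr
          unfold cnt
          refine Finset.sum_le_sum (fun v _ => ?_)
          by_cases h1 : z ∈ tube δ (fun j => M j * p v j) v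
          · have h2 : z.1 ∈ cube δ (cen p v M z.2) := by
              intro j _
              have h3 : (z.1 j - (M j * p v j + z.2 * v j)) ^ 2 ≤ δ ^ 2 :=
                le_trans (Finset.single_le_sum (f := fun j =>
                  (z.1 j - (M j * p v j + z.2 * v j)) ^ 2) (fun i _ => sq_nonneg _)
                  (Finset.mem_univ j)) h1.2
              have h4 := abs_le.1 (abs_le_of_sq_le_sq h3 hδ.le)
              simp only [cen, mem_Icc]
              constructor <;> linarith [h4.1, h4.2]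
            rw [indicator_of_mem h1, indicator_of_mem h2]
          · rw [indicator_of_notMem h1]
            exact zero_le
        · have h0 : ∀ v ∈ V, (tube δ (fun j => M j * p v j) v).indicator
              (fun _ => (1 : ℝ≥0∞)) z = 0 := by
            intro v _
            apply indicator_of_notMem
            intro h
            exact hz (abs_le.1 h.1)
          rw [Finset.sum_eq_zero h0, ENNReal.zero_rpow_of_pos hq]
          exact zero_le
    _ = ∫⁻ t : ℝ, ∫⁻ x : Fin D → ℝ, ({z : (Fin D → ℝ) × ℝ | z.2 ∈ Icc (-1 : ℝ) 1}).indicator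
            (fun z => cnt δ V p M z.2 z.1 ^ q) (x, t) := by
        rw [Measure.volume_eq_prod]
        exact lintegral_prod_symm' _ hm1
    _ = _ := by
        rw [← lintegral_indicator measurableSet_Icc]
        apply lintegral_congr
        intro t
        by_cases ht : t ∈ Icc (-1 : ℝ) 1
        · rw [indicator_of_mem ht]
          unfold GG
          apply lintegral_congr
          intro x
          rw [indicator_of_mem (show (x, t) ∈ {z : (Fin D → ℝ) × ℝ | z.2 ∈ Icc (-1 : ℝ) 1} from ht)]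
        · rw [indicator_of_notMem ht]
          rw [lintegral_eq_zero_iff' (by
            exact (hm1.comp (measurable_id.prodMk measurable_const)).aemeasurable)]
          apply Filter.Eventually.of_forall
          intro x
          simp only [Pi.zero_apply]
          rw [indicator_of_notMem (show (x, t) ∉ {z : (Fin D → ℝ) × ℝ | z.2 ∈ Icc (-1 : ℝ) 1} from ht)]

theorem main (d : ℕ) (A α L q : ℝ) (hA : 0 ≤ A) (hL : 0 < L) (hαd : 1 < α * (d + 2))
    (hα1 : α ≤ 1) (hq : 1 + 1 / (α * (d + 2)) < q) :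
    ∃ C : ℝ, ∀ μ : Fin (d + 1) → Measure ℝ, (∀ j, Reg (μ j) A α L) →
      ∀ δ : ℝ, 0 < δ → ∀ V : Finset (Fin (d + 2) → ℝ),
      (∀ v ∈ V, ∀ w ∈ V, v ≠ w → δ ^ 2 ≤ ∑ j, (v j - w j) ^ 2) →
      ∀ p : (Fin (d + 2) → ℝ) → (Fin (d + 2) → ℝ),
      ∫⁻ m, (∫⁻ z : (Fin (d + 2) → ℝ) × ℝ,
        (∑ v ∈ V, (tube δ (fun j => (Fin.cons 1 m : Fin (d + 2) → ℝ) j * p v j) v).indicator
          (fun _ => (1 : ℝ≥0∞)) z) ^ q) ∂(Measure.pi μ) ≤
        ENNReal.ofReal (C * δ ^ (d + 2) * (V.card : ℝ) ^ (q - 1 / ((d : ℝ) + 2))) := by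
  have hd : (0 : ℝ) ≤ d := Nat.cast_nonneg d
  have hα0 : 0 < α := by
    by_contra hcon
    have : α * (d + 2) ≤ 0 := mul_nonpos_of_nonpos_of_nonneg (not_lt.1 hcon) (by linarith)
    linarith
  set q₁ : ℝ := min q 2 with hq₁
  have hpos : 0 < α * (d + 2) := by linarith
  have h2 : 1 / (α * (d + 2)) < 1 := by rw [div_lt_one hpos]; exact hαd
  have hD : 1 + 1 / (α * (d + 2)) < q₁ := by
    rw [hq₁, lt_min_iff]
    exact ⟨hq, by linarith⟩
  have hDq : 1 < (d + 2) * α * (q₁ - 1) := by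
    have h3 : 1 / (α * (d + 2)) < q₁ - 1 := by linarith
    rw [div_lt_iff₀ hpos] at h3
    linarith
  have h0' : 0 < 1 / (α * ((d : ℝ) + 2)) := by positivity
  have hq₁1 : 1 < q₁ := by linarith
  have hqq : q₁ ≤ q := min_le_left _ _
  have hq0 : 0 < q := by linarith
  obtain ⟨K, hK0, hK⟩ := int_t d A α L q₁ hA hα0 hα1 hL hDq hq₁1.le (min_le_right _ _)
  refine ⟨K, ?_⟩
  intro μ h δ hδ V hV p
  have hfin : ∀ j, IsFiniteMeasure (μ j) := fun j => (h j).fin hL
  rcases Nat.eq_zero_or_pos V.card with h0 | hN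
  · rw [Finset.card_eq_zero] at h0
    subst h0
    simp only [Finset.sum_empty, ENNReal.zero_rpow_of_pos hq0]
    simp
  have hNr : (0 : ℝ) < V.card := by exact_mod_cast hN
  have hpt : ∀ (m : Fin (d + 1) → ℝ) (z : (Fin (d + 2) → ℝ) × ℝ),
      (∑ v ∈ V, (tube δ (fun j => (Fin.cons 1 m : Fin (d + 2) → ℝ) j * p v j) v).indicator
          (fun _ => (1 : ℝ≥0∞)) z) ^ q ≤ (V.card : ℝ≥0∞) ^ (q - q₁) *
      (∑ v ∈ V, (tube δ (fun j => (Fin.cons 1 m : Fin (d + 2) → ℝ) j * p v j) v).indicator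
          (fun _ => (1 : ℝ≥0∞)) z) ^ q₁ := by
    intro m z
    set S := ∑ v ∈ V, (tube δ (fun j => (Fin.cons 1 m : Fin (d + 2) → ℝ) j * p v j) v).indicator
          (fun _ => (1 : ℝ≥0∞)) z with hS
    have hSle : S ≤ V.card := by
      rw [hS]
      calc _ ≤ ∑ v ∈ V, (1 : ℝ≥0∞) :=
            Finset.sum_le_sum (fun v _ => Set.indicator_le_self' (by simp) z)
        _ = _ := by simp
    rcases eq_or_ne S 0 with h0 | h0
    · rw [h0, ENNReal.zero_rpow_of_pos hq0]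
      exact zero_le
    · have hf : S ≠ ⊤ := (hSle.trans_lt (ENNReal.natCast_lt_top _)).ne
      calc S ^ q = S ^ (q - q₁) * S ^ q₁ := by
            rw [← ENNReal.rpow_add _ _ h0 hf]
            congr 1
            ring
        _ ≤ _ := by
            gcongr
  have hNt : (V.card : ℝ≥0∞) ^ (q - q₁) ≠ ⊤ :=
    ENNReal.rpow_ne_top_of_nonneg (by linarith) (ENNReal.natCast_ne_top _)
  calc _ ≤ ∫⁻ m, ((V.card : ℝ≥0∞) ^ (q - q₁) * ∫⁻ t in Icc (-1 : ℝ) 1,
          GG q₁ δ V p (Fin.cons 1 m) t) ∂(Measure.pi μ) := by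
        apply lintegral_mono
        intro m
        simp only
        refine (lintegral_mono (hpt m)).trans ?_
        rw [lintegral_const_mul' _ _ hNt]
        exact mul_le_mul' le_rfl (tube_le q₁ (by linarith) δ hδ V p _)
    _ = (V.card : ℝ≥0∞) ^ (q - q₁) * ∫⁻ m, (∫⁻ t in Icc (-1 : ℝ) 1,
          GG q₁ δ V p (Fin.cons 1 m) t) ∂(Measure.pi μ) := by
        rw [lintegral_const_mul' _ _ hNt]
    _ = (V.card : ℝ≥0∞) ^ (q - q₁) * ∫⁻ t in Icc (-1 : ℝ) 1, TT μ q₁ δ V p t := by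
        rw [swap_TT]
    _ ≤ (V.card : ℝ≥0∞) ^ (q - q₁) * ENNReal.ofReal
          (K * δ ^ (d + 2) * (V.card : ℝ) ^ (q₁ - 1 / ((d : ℝ) + 2))) :=
        mul_le_mul' le_rfl (hK μ h δ hδ V hN hV p)
    _ = _ := by
        have h4 : (V.card : ℝ≥0∞) = ENNReal.ofReal V.card := by simp
        rw [h4, ENNReal.ofReal_rpow_of_pos hNr, ← ENNReal.ofReal_mul (by positivity)]
        congr 1
        have h5 : (V.card : ℝ) ^ (q - 1 / ((d : ℝ) + 2)) =
            (V.card : ℝ) ^ (q - q₁) * (V.card : ℝ) ^ (q₁ - 1 / ((d : ℝ) + 2)) := by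
          rw [← Real.rpow_add hNr]
          congr 1
          ring
        rw [h5]
        ring

end Pool.Agent.H147R3.KK
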